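import Pool.Agent.W172.MK.Stm

/-! Project MK: a criterion for the Markov property. -/

set_option autoImplicit false

open MeasureTheory ProbabilityTheory Filter Topology

namespace Pool.Agent.W800.MK.Markg

open Pool.Agent.W172.MK

theorem markg : P_MARKG := by
  intro S Ω _ m0 P _ X hX n A hA h hh hb hG
  obtain ⟨C, hC⟩ := hb
  have hm : (⨆ (m : ℤ) (_ : m ≤ n), MeasurableSpace.comap (X m) inferInstance) ≤ m0 :=
    iSup_le fun k => iSup_le fun _ => (hX k).comap_le
  have hc : MeasurableSpace.comap (X n) inferInstance ≤ m0 := (hX n).comap_le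
  have hcm : MeasurableSpace.comap (X n) inferInstance ≤
      (⨆ (m : ℤ) (_ : m ≤ n), MeasurableSpace.comap (X m) inferInstance) :=
    le_iSup₂_of_le n le_rfl le_rfl
  have hAm : MeasurableSet (X (n + 1) ⁻¹' A) := hX (n + 1) hA
  have hf : Integrable (Set.indicator (X (n + 1) ⁻¹' A) (fun _ => (1 : ℝ))) P :=
    (integrable_const (1 : ℝ)).indicator hAm
  have hgi : Integrable (fun ω => h (X n ω)) P := by
    refine Integrable.of_bound (hh.comp (hX n)).aestronglyMeasurable C ?_
    exact Filter.Eventually.of_forall fun ω => hC _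
  have hgc : StronglyMeasurable[MeasurableSpace.comap (X n) inferInstance]
      (fun ω => h (X n ω)) := by
    apply Measurable.stronglyMeasurable
    exact hh.comp (comap_measurable (X n))
  have hgm : StronglyMeasurable[⨆ (m : ℤ) (_ : m ≤ n), MeasurableSpace.comap (X m) inferInstance]
      (fun ω => h (X n ω)) := hgc.mono hcm
  have he : ∀ G : Set Ω,
      MeasurableSet[⨆ (m : ℤ) (_ : m ≤ n), MeasurableSpace.comap (X m) inferInstance] G →
      ∫ ω in G, h (X n ω) ∂P =
        ∫ ω in G, Set.indicator (X (n + 1) ⁻¹' A) (fun _ => (1 : ℝ)) ω ∂P := by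
    intro G hGm
    exact (hG G hGm).symm
  have h1 := ae_eq_condExp_of_forall_setIntegral_eq hm hf (g := fun ω => h (X n ω))
    (fun s _ _ => hgi.integrableOn) (fun s hs _ => he s hs) hgm.aestronglyMeasurable
  have h2 := ae_eq_condExp_of_forall_setIntegral_eq hc hf (g := fun ω => h (X n ω))
    (fun s _ _ => hgi.integrableOn) (fun s hs _ => he s (hcm s hs)) hgc.aestronglyMeasurable
  exact h1.symm.trans h2

end Pool.Agent.W800.MK.Markg
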