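import Pool.Agent.W172.MK.Stm

/-! Project MK: a criterion for stationarity. -/

set_option autoImplicit false

open MeasureTheory ProbabilityTheory Filter Topology

namespace Pool.Agent.W800.MK.Statg

open Pool.Agent.W172.MK

theorem window (I : Finset ℤ) : ∃ (k0 : ℤ) (N : ℕ), ∀ i ∈ I, k0 ≤ i ∧ i ≤ k0 + N := by
  classical
  induction I using Finset.induction_on with
  | empty => exact ⟨0, 0, by simp⟩
  | insert a I _ ih =>
    obtain ⟨k, N, hk⟩ := ih
    refine ⟨min a k, (max a (k + N) - min a k).toNat, ?_⟩
    intro i hi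
    have h1 : min a k ≤ a := min_le_left _ _
    have h2 : a ≤ max a (k + N) := le_max_left _ _
    have h3 : min a k ≤ k := min_le_right _ _
    have h4 : k + N ≤ max a (k + N) := le_max_right _ _
    have h5 : ((max a (k + N) - min a k).toNat : ℤ) = max a (k + N) - min a k :=
      Int.toNat_of_nonneg (by omega)
    rw [h5]
    rcases Finset.mem_insert.1 hi with rfl | hi
    · constructor <;> omega
    · have := hk i hi
      constructor <;> omega

theorem statg : P_STATG := by
  classical
  intro S Ω _ _ P _ X hX hwin n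
  have hΦ : Measurable (fun ω (i : ℤ) => X (i + n) ω) := measurable_pi_lambda _ (fun i => hX _)
  have hΦ0 : Measurable (fun ω (i : ℤ) => X i ω) := measurable_pi_lambda _ (fun i => hX _)
  have hms : ∀ (I : Finset ℤ) (t : ℤ → Set S), (∀ i, MeasurableSet (t i)) → ∀ m : ℤ,
      MeasurableSet {ω | ∀ i ∈ I, X (i + m) ω ∈ t i} := by
    intro I t ht m
    have h1 : {ω | ∀ i ∈ I, X (i + m) ω ∈ t i} = ⋂ i ∈ I, X (i + m) ⁻¹' t i := by
      ext ω
      simp
    rw [h1]
    exact Finset.measurableSet_biInter _ (fun i _ => hX _ (ht i))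
  -- key
  have key : ∀ (I : Finset ℤ) (t : ℤ → Set S), (∀ i, MeasurableSet (t i)) →
      P {ω | ∀ i ∈ I, X (i + n) ω ∈ t i} = P {ω | ∀ i ∈ I, X (i + 0) ω ∈ t i} := by
    intro I t ht
    obtain ⟨k0, N, hIN⟩ := window I
    let f : ℕ → S → ℝ := fun j z =>
      if k0 + j ∈ I then (t (k0 + j)).indicator (fun _ => (1 : ℝ)) z else 1
    have hfm : ∀ j, Measurable (f j) := by
      intro j
      by_cases hj : k0 + (j : ℤ) ∈ I
      · have : f j = (t (k0 + j)).indicator (fun _ => (1 : ℝ)) := by
          funext z
          simp only [f, if_pos hj]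
        rw [this]
        exact measurable_const.indicator (ht _)
      · have : f j = fun _ => 1 := by
          funext z
          simp only [f, if_neg hj]
        rw [this]
        exact measurable_const
    have hfb : ∀ j z, |f j z| ≤ 1 := by
      intro j z
      by_cases hj : k0 + (j : ℤ) ∈ I
      · simp only [f, if_pos hj]
        by_cases hz : z ∈ t (k0 + j)
        · rw [Set.indicator_of_mem hz]; simp
        · rw [Set.indicator_of_notMem hz]; simp
      · simp only [f, if_neg hj]
        simp
    have hprod : ∀ m : ℤ, ∀ ω, ∏ j ∈ Finset.range (N + 1), f j (X (k0 + m + j) ω) =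
        Set.indicator {ω | ∀ i ∈ I, X (i + m) ω ∈ t i} (fun _ => (1 : ℝ)) ω := by
      intro m ω
      by_cases hω : ∀ i ∈ I, X (i + m) ω ∈ t i
      · rw [Set.indicator_of_mem (show ω ∈ {ω | ∀ i ∈ I, X (i + m) ω ∈ t i} from hω)]
        apply Finset.prod_eq_one
        intro j _
        by_cases hj : k0 + (j : ℤ) ∈ I
        · simp only [f, if_pos hj]
          have h1 := hω _ hj
          have h2 : k0 + (j : ℤ) + m = k0 + m + j := by ring
          rw [h2] at h1
          rw [Set.indicator_of_mem h1]
        · simp only [f, if_neg hj]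
      · rw [Set.indicator_of_notMem (show ω ∉ {ω | ∀ i ∈ I, X (i + m) ω ∈ t i} from hω)]
        push Not at hω
        obtain ⟨i, hi, hiω⟩ := hω
        obtain ⟨h3, h4⟩ := hIN i hi
        have h5 : ((i - k0).toNat : ℤ) = i - k0 := Int.toNat_of_nonneg (by omega)
        apply Finset.prod_eq_zero (i := (i - k0).toNat)
        · rw [Finset.mem_range]
          omega
        · have h6 : k0 + ((i - k0).toNat : ℤ) = i := by omega
          have h7 : k0 + m + ((i - k0).toNat : ℤ) = i + m := by omega
          simp only [f, h6, if_pos hi, h7]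
          rw [Set.indicator_of_notMem hiω]
    have h1 := hwin N f hfm ⟨1, hfb⟩ (k0 + n) (k0 + 0)
    simp only [hprod] at h1
    rw [integral_indicator_const _ (hms I t ht n), integral_indicator_const _ (hms I t ht 0)] at h1
    simp only [smul_eq_mul, mul_one] at h1
    rw [measureReal_def, measureReal_def,
      ENNReal.toReal_eq_toReal_iff' (measure_ne_top _ _) (measure_ne_top _ _)] at h1
    exact h1
  have : IsProbabilityMeasure (P.map (fun ω (i : ℤ) => X (i + n) ω)) :=
    Measure.isProbabilityMeasure_map hΦ.aemeasurable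
  have : IsProbabilityMeasure (P.map (fun ω (i : ℤ) => X i ω)) :=
    Measure.isProbabilityMeasure_map hΦ0.aemeasurable
  refine ext_of_generate_finite (squareCylinders (fun _ : ℤ => {s : Set S | MeasurableSet s}))
    generateFrom_squareCylinders.symm
    (isPiSystem_squareCylinders (fun _ => MeasurableSpace.isPiSystem_measurableSet)
      (fun _ => MeasurableSet.univ)) ?_ ?_
  · rintro s ⟨I, t, ht, rfl⟩
    have ht' : ∀ i, MeasurableSet (t i) := fun i => ht i (Set.mem_univ i)
    have hs : MeasurableSet ((I : Set ℤ).pi t) :=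
      MeasurableSet.pi (Finset.countable_toSet I) (fun i _ => ht' i)
    rw [Measure.map_apply hΦ hs, Measure.map_apply hΦ0 hs]
    have h2 := key I t ht'
    have e1 : (fun ω (i : ℤ) => X (i + n) ω) ⁻¹' ((I : Set ℤ).pi t) =
        {ω | ∀ i ∈ I, X (i + n) ω ∈ t i} := by
      ext ω
      simp [Set.mem_pi]
    have e2 : (fun ω (i : ℤ) => X i ω) ⁻¹' ((I : Set ℤ).pi t) =
        {ω | ∀ i ∈ I, X (i + 0) ω ∈ t i} := by
      ext ω
      simp [Set.mem_pi]
    rw [e1, e2]
    exact h2
  · rw [measure_univ, measure_univ]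

end Pool.Agent.W800.MK.Statg
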